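import Mathlib

set_option autoImplicit false

open scoped BigOperators Classical

noncomputable section

namespace Pool.Agent.K3h36.KBO

/-- two functions which take every value equally often differ by a permutation -/
theorem exists_perm {α β : Type} [Fintype α] (f g : α → β)
    (h : ∀ b, Fintype.card {a // f a = b} = Fintype.card {a // g a = b}) :
    ∃ π : Equiv.Perm α, g = f ∘ π := by
  have e : ∀ b, {a // g a = b} ≃ {a // f a = b} := fun b => Fintype.equivOfCardEq (h b).symm
  refine ⟨Equiv.ofFiberEquiv e, ?_⟩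
  funext a
  exact (Equiv.ofFiberEquiv_map e a).symm

/-- the number of functions is at most the number of types times the length of the orbits -/
theorem card_le_types {β : Type} [Fintype β] (t N : ℕ)
    (h : ∀ f : Fin t → β, Nat.card {g : Fin t → β // ∃ π : Equiv.Perm (Fin t), g = f ∘ π} ≤ N) :
    Fintype.card β ^ t ≤ N * (t + 1) ^ Fintype.card β := by
  let τ : (Fin t → β) → (β → Fin (t + 1)) := fun f b =>
    ⟨Fintype.card {a // f a = b}, Nat.lt_succ_of_le (by
      simpa using Fintype.card_subtype_le (fun a => f a = b))⟩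
  have h1 := Finset.card_le_mul_card_image (f := τ) (Finset.univ : Finset (Fin t → β)) N (by
    intro c hc
    rw [Finset.mem_image] at hc
    obtain ⟨f, -, rfl⟩ := hc
    refine le_trans ?_ (h f)
    rw [Nat.card_eq_fintype_card, ← Fintype.card_coe]
    refine Fintype.card_le_of_injective
      (fun x => (⟨x.1, ?_⟩ : {g : Fin t → β // ∃ π : Equiv.Perm (Fin t), g = f ∘ π})) ?_
    · have h2 := x.2
      rw [Finset.mem_filter] at h2
      apply exists_perm
      intro b
      have h3 := congrArg Fin.val (congrFun h2.2 b)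
      exact h3.symm
    · intro x y hxy
      exact Subtype.ext (Subtype.mk.inj hxy))
  rw [Finset.card_univ, Fintype.card_fun, Fintype.card_fin] at h1
  refine h1.trans (Nat.mul_le_mul_left _ ?_)
  calc (Finset.univ.image τ).card ≤ (Finset.univ : Finset (β → Fin (t + 1))).card :=
        Finset.card_le_univ _
    _ = (t + 1) ^ Fintype.card β := by
        rw [Finset.card_univ, Fintype.card_fun, Fintype.card_fin]

/-- small powers, with a polynomial factor -/
theorem exists_eps {k D n : ℕ} (K : ℕ) (hD : 0 < D) (hk : D < k) (hn : 1 ≤ n) :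
    ∃ ε : ℝ, 0 < ε ∧ ∀ C : ℝ, ∃ t : ℕ,
      C * (D ^ t : ℕ) * ((n ^ t : ℕ) : ℝ) ^ ε * ((t + 1) ^ K : ℕ) < ((k ^ t : ℕ) : ℝ) := by
  set ρ : ℝ := (k : ℝ) / D with hρ
  have hD' : (0 : ℝ) < D := by exact_mod_cast hD
  have h1 : (1 : ℝ) < ρ := by
    rw [hρ, one_lt_div hD']
    exact_mod_cast hk
  have hn0 : (0 : ℝ) < n := by exact_mod_cast (show 0 < n by omega)
  have hln : 0 ≤ Real.log n := Real.log_nonneg (by exact_mod_cast hn)
  have hlr : 0 < Real.log ρ := Real.log_pos h1
  have hρ0 : 0 < ρ := by linarith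
  refine ⟨Real.log ρ / (2 * (Real.log n + 1)), by positivity, fun C => ?_⟩
  set ε := Real.log ρ / (2 * (Real.log n + 1)) with hε
  have h2 : (n : ℝ) ^ ε ≤ Real.exp (Real.log ρ / 2) := by
    rw [Real.rpow_def_of_pos hn0]
    apply Real.exp_le_exp.mpr
    rw [hε, mul_div_assoc', div_le_div_iff₀ (by positivity) (by norm_num)]
    nlinarith
  set s := Real.exp (Real.log ρ / 2) with hs
  have hss : s * s = ρ := by
    rw [hs, ← Real.exp_add, add_halves, Real.exp_log hρ0]
  have hs1 : 1 < s := by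
    rw [hs]
    exact Real.one_lt_exp_iff.mpr (by positivity)
  have hs0 : 0 < s := by linarith
  have hlim := (tendsto_pow_const_div_const_pow_of_one_lt K hs1).comp
    (Filter.tendsto_add_atTop_nat 1)
  have hC : (0 : ℝ) < 1 / (s * (max C 1)) := by positivity
  obtain ⟨t, ht⟩ := (hlim.eventually (gt_mem_nhds hC)).exists
  refine ⟨t, ?_⟩
  simp only [Function.comp] at ht
  have hm : (0 : ℝ) < max C 1 := by positivity
  rw [div_lt_div_iff₀ (by positivity) (by positivity), one_mul] at ht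
  have h3 : (((n ^ t : ℕ) : ℝ)) ^ ε = ((n : ℝ) ^ ε) ^ t := by
    push_cast
    rw [← Real.rpow_natCast ((n : ℝ) ^ ε), ← Real.rpow_mul hn0.le, mul_comm ε,
      Real.rpow_mul hn0.le, Real.rpow_natCast]
  have h4 : ((n : ℝ) ^ ε) ^ t ≤ s ^ t := pow_le_pow_left₀ (Real.rpow_nonneg hn0.le _) h2 _
  have h5 : (k : ℝ) = ρ * D := by
    rw [hρ, div_mul_cancel₀ _ hD'.ne']
  rw [h3]
  push_cast
  rw [h5, mul_pow, ← hss, mul_pow]
  have hst : 0 < s ^ t := by positivity
  have hDt : 0 < (D : ℝ) ^ t := by positivity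
  push_cast at ht
  rw [pow_succ] at ht
  have h6 : ((t : ℝ) + 1) ^ K * max C 1 < s ^ t := by
    have h7 : ((t : ℝ) + 1) ^ K * (s * max C 1) = (((t : ℝ) + 1) ^ K * max C 1) * s := by ring
    rw [h7] at ht
    exact lt_of_mul_lt_mul_right ht hs0.le
  calc C * (D : ℝ) ^ t * ((n : ℝ) ^ ε) ^ t * ((t : ℝ) + 1) ^ K
      ≤ max C 1 * (D : ℝ) ^ t * ((n : ℝ) ^ ε) ^ t * ((t : ℝ) + 1) ^ K := by
        gcongr
        exact le_max_left _ _
    _ ≤ max C 1 * (D : ℝ) ^ t * s ^ t * ((t : ℝ) + 1) ^ K := by gcongr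
    _ = (((t : ℝ) + 1) ^ K * max C 1) * ((D : ℝ) ^ t * s ^ t) := by ring
    _ < s ^ t * ((D : ℝ) ^ t * s ^ t) := by gcongr
    _ = s ^ t * s ^ t * (D : ℝ) ^ t := by ring

end Pool.Agent.K3h36.KBO
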