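import Pool.Agent.K3h3.KB.Fin
import Pool.Agent.K3h36.KBO.Comb

/-!
# Orbits of automorphisms on the characters of a block
-/

set_option autoImplicit false

open scoped BigOperators Classical

noncomputable section

namespace Pool.Agent.K3h36.KBO

open Pool.Agent.H254R3.IN Pool.Agent.Q288.MB Pool.Agent.K3h3.KB

/-- the characters in `B` which are conjugate to `χ` under the automorphism group of `X` -/
def conjIn {X : Type} [Group X] (B : Set (X → ℂ)) (χ : X → ℂ) : Set (X → ℂ) :=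
  {ψ | ψ ∈ B ∧ ∃ α : X ≃* X, ψ = fun x => χ (α x)}

theorem bt_comp {I G : Type} [Group G] [Fintype I] (ψ : I → G → ℂ) (π : Equiv.Perm I) :
    bt (fun i => ψ (π i)) = fun x => bt ψ (reE G π x) := by
  funext x
  unfold bt
  exact Fintype.prod_equiv π _ _ fun i => by simp [reE]

variable {p : ℕ} [hp : Fact p.Prime] {O : ValuationSubring ℂ}

theorem card_le {G : Type} [Group G] [Finite G] {B : Set (G → ℂ)} (hB : ∀ χ ∈ B, IsIrr χ)
    (t N : ℕ) (h : ∀ χ ∈ btS (I := Fin t) fun _ => B,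
      Nat.card (conjIn (btS (I := Fin t) fun _ => B) χ) ≤ N) :
    Nat.card B ^ t ≤ N * (t + 1) ^ Nat.card B := by
  have := Fintype.ofFinite G
  have hfin : Finite B := by
    have h1 : (B : Set (G → ℂ)) = (fs B : Set (G → ℂ)) := (coe_fs hB).symm
    rw [h1]
    infer_instance
  have := Fintype.ofFinite B
  rw [Nat.card_eq_fintype_card]
  apply card_le_types
  intro f
  have h1 : bt (fun i => (f i : G → ℂ)) ∈ btS (I := Fin t) fun _ => B :=
    ⟨_, fun i => (f i).2, rfl⟩
  refine le_trans ?_ (h _ h1)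
  have hfin2 : Finite (conjIn (btS (I := Fin t) fun _ => B) (bt (fun i => (f i : G → ℂ)))) := by
    have h2 : (btS (I := Fin t) fun _ => B).Finite := by
      rw [← coe_fs (btS_irr fun _ => hB)]
      exact Finset.finite_toSet _
    exact (h2.subset fun ψ hψ => hψ.1).to_subtype
  refine Nat.card_le_card_of_injective
    (fun g => (⟨bt (fun i => ((g.1 i : B) : G → ℂ)), ⟨_, fun i => (g.1 i).2, rfl⟩, ?_⟩ :
      conjIn (btS (I := Fin t) fun _ => B) (bt (fun i => (f i : G → ℂ))))) ?_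
  · obtain ⟨π, hπ⟩ := g.2
    refine ⟨reE G π, ?_⟩
    rw [← bt_comp, hπ]
    rfl
  · intro a b hab
    have h3 := Subtype.mk.inj hab
    have h4 := bt_inj (fun i => hB _ (a.1 i).2) (fun i => hB _ (b.1 i).2) h3
    apply Subtype.ext
    funext i
    exact Subtype.ext (congrFun h4 i)

theorem equivalence (O : ValuationSubring ℂ) :
    (∀ (G : Type) [Group G] [Finite G] (B : Set (G → ℂ)) (d : ℕ), IsBlock O B →
        HasDefect p B d → Nat.card B ≤ p ^ d) ↔
      ∀ ε : ℝ, 0 < ε → ∃ C : ℝ, ∀ (X : Type) [Group X] [Finite X] (B : Set (X → ℂ)) (d : ℕ),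
        IsBlock O B → HasDefect p B d → ∀ χ ∈ B,
          (Nat.card (conjIn B χ) : ℝ) ≤ C * (p ^ d : ℕ) * (Nat.card X : ℝ) ^ ε := by
  constructor
  · intro h ε hε
    refine ⟨1, fun X _ _ B d hB hd χ _ => ?_⟩
    have := Fintype.ofFinite X
    have h1 := h X B d hB hd
    have h2 : (1 : ℝ) ≤ (Nat.card X : ℝ) ^ ε := by
      apply Real.one_le_rpow _ hε.le
      exact_mod_cast Nat.card_pos
    have hBf : B.Finite := by
      rw [← coe_fs hB.irr]
      exact Finset.finite_toSet _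
    have h4 : Nat.card (conjIn B χ) ≤ Nat.card B := by
      have : Finite B := hBf.to_subtype
      exact Nat.card_le_card_of_injective (fun x => (⟨x.1, x.2.1⟩ : B)) fun a b hab =>
        Subtype.ext (Subtype.mk.inj hab)
    have h3 : (Nat.card (conjIn B χ) : ℝ) ≤ (p ^ d : ℕ) := by exact_mod_cast h4.trans h1
    rw [one_mul]
    calc (Nat.card (conjIn B χ) : ℝ) ≤ (p ^ d : ℕ) * 1 := by rw [mul_one]; exact h3
      _ ≤ (p ^ d : ℕ) * (Nat.card X : ℝ) ^ ε := by gcongr
  · intro h G _ _ B d hB hd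
    by_contra hv
    push Not at hv
    have := Fintype.ofFinite G
    obtain ⟨ε, hε, h1⟩ := exists_eps (n := Nat.card G) (Nat.card B) (pow_pos hp.out.pos d) hv
      Nat.card_pos
    obtain ⟨C, hC⟩ := h ε hε
    obtain ⟨t, ht⟩ := h1 C
    set M : ℝ := C * ((p ^ d) ^ t : ℕ) * ((Nat.card G ^ t : ℕ) : ℝ) ^ ε with hM
    have hdef : HasDefect p (btS (I := Fin t) fun _ => B) (t * d) := by
      have h := btS_defect (I := Fin t) (fun _ => hB.irr) (fun _ => hd)
      simpa using h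
    have hle : ∀ χ ∈ btS (I := Fin t) fun _ => B,
        (Nat.card (conjIn (btS (I := Fin t) fun _ => B) χ) : ℝ) ≤ M := by
      intro χ hχ
      have h2 := hC (Fin t → G) (btS fun _ => B) (t * d) (btS_block fun _ => hB) hdef χ hχ
      rwa [Nat.card_fun, Nat.card_eq_fintype_card (α := Fin t), Fintype.card_fin, mul_comm t d,
        pow_mul] at h2
    obtain ⟨χ₀, hχ₀⟩ := hB
    have hne : ∃ χ, χ ∈ btS (I := Fin t) fun _ => B :=
      ⟨_, fun _ => χ₀, fun _ => by rw [hχ₀.2]; exact ⟨hχ₀.1, fun x => by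
        rw [sub_self, ValuationSubring.mem_nonunits_iff, map_zero]; exact zero_lt_one⟩, rfl⟩
    have hM0 : 0 ≤ M := by
      obtain ⟨χ, hχ⟩ := hne
      exact le_trans (Nat.cast_nonneg _) (hle χ hχ)
    have h3 := card_le (IsBlock.irr ⟨χ₀, hχ₀⟩) t ⌊M⌋₊ fun χ hχ => Nat.le_floor (hle χ hχ)
    have h4 : ((Nat.card B ^ t : ℕ) : ℝ) ≤ M * ((t + 1) ^ Nat.card B : ℕ) := by
      calc ((Nat.card B ^ t : ℕ) : ℝ) ≤ ((⌊M⌋₊ * (t + 1) ^ Nat.card B : ℕ) : ℝ) := by
            exact_mod_cast h3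
        _ = (⌊M⌋₊ : ℝ) * ((t + 1) ^ Nat.card B : ℕ) := by push_cast; ring
        _ ≤ M * ((t + 1) ^ Nat.card B : ℕ) := by
            gcongr
            exact Nat.floor_le hM0
    exact absurd ht (not_lt.mpr h4)

end Pool.Agent.K3h36.KBO
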